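import Mathlib
import Pool.Agent.H77.TF.Stm3

/-!
# Project TC, module CIB: a complete intersection gives freeness
-/

set_option autoImplicit false

open MvPolynomial Module

namespace Pool.Agent.H15.TF

open Pool.Agent.H77.TF

variable {K : Type} [Field K] {ν : Type}

section graded

attribute [local instance] MvPolynomial.gradedAlgebra

theorem comp_mul (p r : MvPolynomial (Fin 3) K) (m e : ℕ) (hp : p.IsHomogeneous m) :
    homogeneousComponent (m + e) (p * r) = p * homogeneousComponent e r := by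
  have h := DirectSum.coe_decompose_mul_add_of_left_mem (homogeneousSubmodule (Fin 3) K)
    (i := m) (j := e) (a := p) (b := r) hp
  have h1 : ((DirectSum.decompose (homogeneousSubmodule (Fin 3) K) (p * r)) (m + e) :
      MvPolynomial (Fin 3) K) = homogeneousComponent (m + e) (p * r) :=
    decomposition.decompose'_apply _ _
  have h2 : ((DirectSum.decompose (homogeneousSubmodule (Fin 3) K) r) e :
      MvPolynomial (Fin 3) K) = homogeneousComponent e r :=
    decomposition.decompose'_apply _ _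
  rwa [h1, h2] at h

end graded

theorem evl_sub (a : Fin 3 → K) (v w : Fin 3 → MvPolynomial (Fin 3) K) :
    evl a (v - w) = evl a v - evl a w := by
  simp [evl, mul_sub, Finset.sum_sub_distrib]

theorem evl_smul (a : Fin 3 → K) (r : MvPolynomial (Fin 3) K) (v : Fin 3 → MvPolynomial (Fin 3) K) :
    evl a (r • v) = r * evl a v := by
  simp only [evl, Finset.mul_sum, Pi.smul_apply, smul_eq_mul]
  exact Finset.sum_congr rfl fun j _ => by ring

theorem evl_frob0 [Fintype K] (a : Fin 3 → K) : evl a (frob K 3 0) = lin a := by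
  simp [evl, lin, frob]

theorem lin_hom (a : Fin 3 → K) : (lin a).IsHomogeneous 1 := by
  unfold lin
  refine IsHomogeneous.sum _ _ _ fun i _ => ?_
  simpa using (isHomogeneous_C (Fin 3) (a i)).mul (isHomogeneous_X K i)

theorem evl_hom (a : Fin 3 → K) (v : Fin 3 → MvPolynomial (Fin 3) K) (d : ℕ)
    (hv : ∀ i, (v i).IsHomogeneous d) : (evl a v).IsHomogeneous d := by
  unfold evl
  refine IsHomogeneous.sum _ _ _ fun i _ => ?_
  simpa using (isHomogeneous_C (Fin 3) (a i)).mul (hv i)

theorem eval_lin (a x : Fin 3 → K) : eval x (lin a) = ∑ j, a j * x j := by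
  simp [lin]

theorem mem_Pts_iff [Fintype ν] (A : ν → Fin 3 → K) (x : Fin 3 → K) :
    x ∈ Pts A ↔ eval x (∏ i, lin (A i)) ≠ 0 := by
  rw [map_prod, Finset.prod_ne_zero_iff]
  simp only [Pts, Set.mem_ofPred_eq, eval_lin, Finset.mem_univ, true_imp_iff]

theorem van_eval (A : ν → Fin 3 → K) (x : Fin 3 → K) (hx : x ∈ Pts A) (f : MvPolynomial (Fin 3) K)
    (hf : f ∈ van A) : eval x f = 0 := by
  have : van A ≤ RingHom.ker (eval x) := by
    unfold van
    rw [Ideal.span_le]
    rintro g ⟨_, hg⟩
    exact hg x hx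
  exact this hf

theorem D3_expand [Fintype K] (v : Fin 3 → MvPolynomial (Fin 3) K) :
    D3 v = v 0 * (frob K 3 0 1 * frob K 3 1 2 - frob K 3 0 2 * frob K 3 1 1)
      - v 1 * (frob K 3 0 0 * frob K 3 1 2 - frob K 3 0 2 * frob K 3 1 0)
      + v 2 * (frob K 3 0 0 * frob K 3 1 1 - frob K 3 0 1 * frob K 3 1 0) := by
  unfold D3
  rw [Matrix.det_fin_three]
  simp
  ring

theorem D3_sub [Fintype K] (v w : Fin 3 → MvPolynomial (Fin 3) K) : D3 (v - w) = D3 v - D3 w := by
  rw [D3_expand, D3_expand, D3_expand]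
  simp only [Pi.sub_apply]
  ring

theorem D3_smul [Fintype K] (r : MvPolynomial (Fin 3) K) (v : Fin 3 → MvPolynomial (Fin 3) K) :
    D3 (r • v) = r * D3 v := by
  rw [D3_expand, D3_expand]
  simp only [Pi.smul_apply, smul_eq_mul]
  ring

theorem D3_frob0 [Fintype K] : D3 (frob K 3 0) = 0 := by
  rw [D3_expand]
  ring

theorem eval_D3 [Fintype K] (v : Fin 3 → MvPolynomial (Fin 3) K) (x : Fin 3 → K) :
    eval x (D3 v) = 0 := by
  have h : ∀ i, eval x (frob K 3 1 i) = eval x (frob K 3 0 i) := by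
    intro i
    simp [frob, FiniteField.pow_card]
  rw [D3_expand]
  simp only [map_add, map_sub, map_mul, h]
  ring

/-- Removing the value at one form by a multiple of the Euler field. -/
theorem adjust [Fintype K] (A : ν → Fin 3 → K) (i₀ : ν)
    (φ : Fin 3 → MvPolynomial (Fin 3) K) (d : ℕ)
    (hφ : φ ∈ LD A) (hd : ∀ i, (φ i).IsHomogeneous d) :
    ∃ φ' : Fin 3 → MvPolynomial (Fin 3) K, φ' ∈ LD A ∧ (∀ i, (φ' i).IsHomogeneous d) ∧
      evl (A i₀) φ' = 0 ∧ D3 φ' = D3 φ := by
  obtain ⟨r, hr⟩ := hφ i₀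
  have hlin : (lin (A i₀)).IsHomogeneous 1 := lin_hom _
  have hE : (evl (A i₀) φ).IsHomogeneous d := evl_hom _ _ _ hd
  have hF : frob K 3 0 ∈ LD A := by
    intro i
    rw [evl_frob0]
  have hFh : ∀ i, (frob K 3 0 i).IsHomogeneous 1 := by
    intro i
    simpa [frob] using isHomogeneous_X K i
  rcases Nat.eq_zero_or_pos d with h0 | hpos
  · subst h0
    refine ⟨φ, hφ, hd, ?_, rfl⟩
    -- a constant divisible by a linear form
    have h1 : homogeneousComponent 0 (evl (A i₀) φ) = evl (A i₀) φ := homogeneousComponent_eq_self hE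
    rw [← h1, homogeneousComponent_zero, hr]
    have h2 : coeff 0 (lin (A i₀) * r) = 0 := by
      have : constantCoeff (lin (A i₀) * r) = 0 := by
        rw [map_mul]
        simp [lin]
      simpa [constantCoeff_eq] using this
    rw [h2, C_0]
  · obtain ⟨e, rfl⟩ : ∃ e, d = 1 + e := ⟨d - 1, by omega⟩
    have h1 : evl (A i₀) φ = lin (A i₀) * homogeneousComponent e r := by
      rw [← comp_mul _ _ _ _ hlin, ← hr]
      exact (homogeneousComponent_eq_self hE).symm
    refine ⟨φ - homogeneousComponent e r • frob K 3 0,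
      Submodule.sub_mem _ hφ (Submodule.smul_mem _ _ hF), ?_, ?_, ?_⟩
    · intro i
      refine (hd i).sub ?_
      have := (homogeneousComponent_isHomogeneous e r).mul (hFh i)
      rw [add_comm] at this
      exact this
    · rw [evl_sub, evl_smul, evl_frob0, h1]
      ring
    · rw [D3_sub, D3_smul, D3_frob0, mul_zero, sub_zero]

theorem cib (hDD3 : S_DD3) (hMR3 : S_MR3) (hGC3 : S_GC3) (hKR3 : S_KR3) (hSAI : S_SAI) : S_CIB := by
  intro K _ _ ν _ _ A u v f g hA hP hf hg hsum hvan
  obtain ⟨x₀, hx₀⟩ := hP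
  set Q : MvPolynomial (Fin 3) K := ∏ i, lin (A i) with hQ
  have hQ0 : eval x₀ Q ≠ 0 := (mem_Pts_iff A x₀).1 hx₀
  have hQne : Q ≠ 0 := by
    intro h
    rw [h, map_zero] at hQ0
    exact hQ0 rfl
  have hQh : Q.IsHomogeneous (Fintype.card ν) := by
    have := MvPolynomial.IsHomogeneous.prod (Finset.univ : Finset ν) (fun i => lin (A i))
      (fun _ => 1) (fun i _ => lin_hom (A i))
    simpa [hQ] using this
  have hfv : f ∈ van A := by rw [hvan]; exact Ideal.subset_span (by simp)
  have hgv : g ∈ van A := by rw [hvan]; exact Ideal.subset_span (by simp)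
  -- minors are in the ideal
  have hminor : ∀ s t : Fin 3, X s * X t ^ Fintype.card K - X t * X s ^ Fintype.card K ∈ van A := by
    intro s t
    refine Ideal.subset_span ⟨⟨1 + Fintype.card K, ?_⟩, ?_⟩
    · exact ((isHomogeneous_X K s).mul (isHomogeneous_X_pow t _)).sub
        ((isHomogeneous_X K t).mul (isHomogeneous_X_pow s _))
    · intro x _
      simp [FiniteField.pow_card]
      ring
  have hunit : ∀ p : MvPolynomial (Fin 3) K, p ∣ f → p ∣ g → IsUnit p := by
    intro p hpf hpg
    have h : ∀ h ∈ van A, p ∣ h := by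
      intro h hh
      rw [hvan, Ideal.mem_span_pair] at hh
      obtain ⟨a, b, rfl⟩ := hh
      exact dvd_add (hpf.mul_left _) (hpg.mul_left _)
    exact hGC3 K p (h _ (hminor 0 1)) (h _ (hminor 0 2)) (h _ (hminor 1 2))
  have hnotop : ∀ p : MvPolynomial (Fin 3) K, p ∈ van A → ¬ IsUnit p := by
    intro p hp hu
    have h := van_eval A x₀ hx₀ p hp
    exact (hu.map (eval x₀)).ne_zero h
  have hf0 : f ≠ 0 := by
    intro h
    exact hnotop g hgv (hunit g (by rw [h]; exact dvd_zero _) dvd_rfl)
  have hg0 : g ≠ 0 := by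
    intro h
    exact hnotop f hfv (hunit f dvd_rfl (by rw [h]; exact dvd_zero _))
  -- the fields
  have hvanish : ∀ h : MvPolynomial (Fin 3) K, h ∈ van A → ∀ x : Fin 3 → K, eval x (h * Q) = 0 := by
    intro h hh x
    rw [map_mul]
    by_cases hx : x ∈ Pts A
    · rw [van_eval A x hx h hh, zero_mul]
    · have : eval x Q = 0 := by
        by_contra hne
        exact hx ((mem_Pts_iff A x).2 hne)
      rw [this, mul_zero]
  obtain ⟨φ₀, hφD, hφd, hφh⟩ := hMR3 K (f * Q) (u + Fintype.card ν) (hf.mul hQh) (hvanish f hfv)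
  obtain ⟨ψ₀, hψD, hψd, hψh⟩ := hMR3 K (g * Q) (v + Fintype.card ν) (hg.mul hQh) (hvanish g hgv)
  have hφd := hφd (mul_ne_zero hf0 hQne)
  have hψd := hψd (mul_ne_zero hg0 hQne)
  have e1 : u + Fintype.card ν - (Fintype.card K + 1) = Fintype.card K - v := by omega
  have e2 : v + Fintype.card ν - (Fintype.card K + 1) = Fintype.card K - u := by omega
  rw [e1] at hφh
  rw [e2] at hψh
  have hφL : φ₀ ∈ LD A := (hDD3 K ν A hA φ₀).2 (by rw [hφD]; exact dvd_mul_left _ _)
  have hψL : ψ₀ ∈ LD A := (hDD3 K ν A hA ψ₀).2 (by rw [hψD]; exact dvd_mul_left _ _)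
  obtain ⟨i₀⟩ : Nonempty ν := inferInstance
  obtain ⟨φ, hφL, hφh, hφe, hφD'⟩ := adjust A i₀ φ₀ _ hφL hφh
  obtain ⟨ψ, hψL, hψh, hψe, hψD'⟩ := adjust A i₀ ψ₀ _ hψL hψh
  rw [hφD] at hφD'
  rw [hψD] at hψD'
  have hD0 : D3 (g • φ - f • ψ) = 0 := by
    rw [D3_sub, D3_smul, D3_smul, hφD', hψD']
    ring
  have hhom : ∀ i, ((g • φ - f • ψ) i).IsHomogeneous (Fintype.card K) := by
    intro i
    have h1 := hg.mul (hφh i)
    have h2 := hf.mul (hψh i)
    rw [show v + (Fintype.card K - v) = Fintype.card K by omega] at h1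
    rw [show u + (Fintype.card K - u) = Fintype.card K by omega] at h2
    exact h1.sub h2
  obtain ⟨α, γ, hαγ⟩ := (hKR3 K (g • φ - f • ψ) hD0).2 hhom
  by_cases hγ : γ = 0
  · -- the degenerate case
    exfalso
    rw [hγ, C_0, zero_smul, add_zero] at hαγ
    have h1 := congrArg (evl (A i₀)) hαγ
    rw [evl_sub, evl_smul, evl_smul, evl_smul, hφe, hψe, evl_frob0, mul_zero, mul_zero,
      sub_zero] at h1
    have hl : lin (A i₀) ≠ 0 := by
      intro h
      apply hQne
      rw [hQ]
      exact Finset.prod_eq_zero (Finset.mem_univ i₀) h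
    have hα : α = 0 := by
      rcases mul_eq_zero.1 h1.symm with h | h
      · exact h
      · exact absurd h hl
    rw [hα, zero_smul, sub_eq_zero] at hαγ
    have hrel : IsRelPrime f g := fun p hpf hpg => hunit p hpf hpg
    have hdv : ∀ i, f ∣ φ i := by
      intro i
      have h2 := congrFun hαγ i
      simp only [Pi.smul_apply, smul_eq_mul] at h2
      exact hrel.dvd_of_dvd_mul_left (by rw [h2]; exact dvd_mul_right _ _)
    choose χ hχ using hdv
    have h3 : φ = f • χ := by
      funext i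
      rw [hχ i]
      rfl
    rw [h3, D3_smul] at hφD'
    have h4 : D3 χ = Q := mul_left_cancel₀ hf0 hφD'
    apply hQ0
    rw [← h4, eval_D3]
  · -- Saito's criterion
    have hdet : (Matrix.of ![frob K 3 0, ψ, φ]).det = C (-γ) * Q := by
      have key : f * (Matrix.of ![frob K 3 0, ψ, φ]).det = f * (C (-γ) * Q) := by
        have h5 : f • ψ = g • φ - α • frob K 3 0 - (C γ : MvPolynomial (Fin 3) K) • frob K 3 1 := by
          rw [sub_sub, ← hαγ]
          abel
        have c0 := congrFun h5 0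
        have c1 := congrFun h5 1
        have c2 := congrFun h5 2
        simp only [Pi.smul_apply, Pi.sub_apply, smul_eq_mul] at c0 c1 c2
        have hφD'' := hφD'
        rw [D3_expand] at hφD''
        rw [Matrix.det_fin_three]
        simp only [Matrix.of_apply, Matrix.cons_val_zero, Matrix.cons_val_one, Matrix.cons_val]
        rw [C_neg]
        linear_combination (frob K 3 0 2 * φ 1 - frob K 3 0 1 * φ 2) * c0 +
          (frob K 3 0 0 * φ 2 - frob K 3 0 2 * φ 0) * c1 +
          (frob K 3 0 1 * φ 0 - frob K 3 0 0 * φ 1) * c2 - C γ * hφD''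
      exact mul_left_cancel₀ hf0 key
    have hF : frob K 3 0 ∈ LD A := by
      intro i
      rw [evl_frob0]
    obtain ⟨b, hb⟩ := hSAI K 3 ν A hA ![frob K 3 0, ψ, φ] (-γ) (neg_ne_zero.2 hγ)
      (by
        intro k
        fin_cases k
        · exact hF
        · exact hψL
        · exact hφL) hdet
    refine ⟨b, ?_⟩
    intro j i
    rw [hb j]
    fin_cases j
    · simpa [frob] using isHomogeneous_X K i
    · exact hψh i
    · exact hφh i

end Pool.Agent.H15.TF
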